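import Pool.Agent.H358R3.Odd4

set_option autoImplicit false

/-- For every odd prime `p` and each parity there is an integer `1 ≤ k < 75 * p` not divisible by
`p` for which the number of prime factors of `2 * k * p + 1`, counted with multiplicity, has that
parity. -/
theorem Pool.Agent.Results.MP_2f88e5_nt.ParityTwoKP.result :
    ∀ p : ℕ, p.Prime → p ≠ 2 → ∀ j : ℕ, j < 2 →
      ∃ k : ℕ, 1 ≤ k ∧ k < 75 * p ∧ ¬ p ∣ k ∧
        ArithmeticFunction.cardFactors (2 * k * p + 1) % 2 = j := by
  intro p hp hp2 j hj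
  obtain ⟨k, h1, h2, h3, h4⟩ := Pool.Agent.H358R3.OddCase.parity p hp
    (hp.eq_two_or_odd.resolve_left hp2) j hj
  refine ⟨k, h1, h2, h3, ?_⟩
  rw [← h4, ArithmeticFunction.cardFactors_apply]
  congr 1
  unfold Pool.Agent.H358R3.om
  simp
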